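import Pool.Agent.Q130.LS.Op

set_option autoImplicit false

/-! # Power saving for arbitrary sets and all their dense subsets, for most characters

For EVERY prime `p`, ARBITRARY nonempty sets `A`, `B` of residues modulo `p` and every real `τ`:
for all but at most `p ^ (1 + 4 τ) (1 / |A| + 1 / |B|)` of the characters `χ` modulo `p` the
operator norm of the matrix `χ(a - b)`, `a ∈ A`, `b ∈ B`, is at most `p ^ (-τ) √(|A| |B|)`.
With the weights `f = 1_{A'}`, `g = 1_{B'}` this says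
`|∑_{a ∈ A', b ∈ B'} χ(a - b)| ≤ p ^ (-τ) √(|A| |B| |A'| |B'|)` for all subsets `A'` of `A` and `B'`
of `B`, in particular `A' = B'` if `A = B`. If `|A|, |B| > p ^ δ` then there are at most
`2 p ^ (1 - δ + 4 τ)` exceptional characters. -/

namespace Pool.Agent.Results.MP_cb27ba_nt.ArbitrarySetsMostCharacters

open Finset

theorem result (p : ℕ) [Fact p.Prime] (A B : Finset (ZMod p)) (τ : ℝ)
    (hA : A.Nonempty) (hB : B.Nonempty) :
    ({χ : DirichletCharacter ℂ p | ∃ f g : ZMod p → ℂ,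
      (p : ℝ) ^ (-τ) * Real.sqrt (A.card * B.card) *
        (Real.sqrt (∑ a ∈ A, ‖f a‖ ^ 2) * Real.sqrt (∑ b ∈ B, ‖g b‖ ^ 2)) <
        ‖∑ a ∈ A, ∑ b ∈ B, f a * g b * χ (a - b)‖}.ncard : ℝ) ≤
      (p : ℝ) ^ (1 + 4 * τ) * (1 / A.card + 1 / B.card) :=
  Pool.Agent.Q130.LS.many A B τ hA hB

end Pool.Agent.Results.MP_cb27ba_nt.ArbitrarySetsMostCharacters
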