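import Pool.Agent.Q93.PG.SymThr

/-!
# Character sums over difference sets: sharp thresholds for the number of bad sets

`S χ A = ∑_{a, b ∈ A} χ(a - b)`.
-/

namespace Pool.Agent.Results.MP_cb27ba_nt.CountingThreshold

/-- The sum of the problem. -/
noncomputable def S {p : ℕ} (χ : DirichletCharacter ℂ p) (A : Finset (ZMod p)) : ℂ :=
  ∑ a ∈ A, ∑ b ∈ A, χ (a - b)

open scoped Classical in
/-- The bad sets of `m` elements: `|S(A)| ≥ η m²`. -/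
noncomputable def badSets {p : ℕ} [NeZero p] (χ : DirichletCharacter ℂ p) (m : ℕ) (η : ℝ) :
    Finset (Finset (ZMod p)) :=
  (Finset.univ.powersetCard m).filter (fun A => η * ((m : ℝ) * m) ≤ ‖S χ A‖)

/-- The problem. -/
def Q1 : Prop :=
  ∀ δ : ℝ, 0 < δ → ∃ τ : ℝ, 0 < τ ∧ ∃ P : ℕ, ∀ p : ℕ, p.Prime → P ≤ p →
    ∀ A : Finset (ZMod p), (p : ℝ) ^ δ < (A.card : ℝ) →
      ∀ χ : DirichletCharacter ℂ p, χ ≠ 1 → ‖S χ A‖ < (A.card : ℝ) ^ (2 - τ)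

/-- **Main theorem.** Let `p` be prime and `χ ≠ 1` a character modulo `p`.

1. Let `ε > 0`, `p ≥ p₀(ε)`, `p^ε < m ≤ p`, `0 ≤ δ ≤ ε/100`. The proportion of the sets `A` of `m`
   elements with `|S(A)| ≥ p^(-δ) m²` is at most `p^(-(ε/400) p^(-δ/2) m)`.
2. Q1 holds iff the exponent `p^(-δ/2)` in (1) can be improved by a power of `p`: for every `ε > 0`
   there are `κ, δ` with `0 < 2κ < δ < ε` such that for large `p`, all `χ ≠ 1` and `p^ε < m ≤ p` the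
   proportion is less than `p^(-p^(-κ) m)`.
3. (One bad set gives many.) For every `p`, `χ ≠ 1`, `A` with `|A| = m ≥ 1` and `k` with
   `4 k m ≤ |S(A)|`, `m + 2k ≤ p` and `12 k m² ≤ (p - 2k) |S(A)|`, at least `C(p,m) / (4 p^(4k))` of
   the sets `A'` of `m` elements have `|S(A')| ≥ (k/2m)² |S(A)|`. -/
theorem result :
    (∀ ε : ℝ, 0 < ε → ∃ p₀ : ℕ, ∀ p : ℕ, ∀ hp : p.Prime, p₀ < p →
      haveI := Fact.mk hp
      ∀ χ : DirichletCharacter ℂ p, χ ≠ 1 →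
      ∀ m : ℕ, (p : ℝ) ^ ε < m → m ≤ p → ∀ δ : ℝ, 0 ≤ δ → δ ≤ ε / 100 →
        ((badSets χ m ((p : ℝ) ^ (-δ))).card : ℝ) ≤
          (p : ℝ) ^ (-(ε / 400 * ((p : ℝ) ^ (-δ / 2) * m))) * p.choose m) ∧
    (Q1 ↔ ∀ ε : ℝ, 0 < ε → ∃ κ δ : ℝ, 0 < κ ∧ 2 * κ < δ ∧ δ < ε ∧ ∃ p₀ : ℕ, ∀ p : ℕ,
      ∀ hp : p.Prime, p₀ < p → haveI := Fact.mk hp
      ∀ χ : DirichletCharacter ℂ p, χ ≠ 1 → ∀ m : ℕ, (p : ℝ) ^ ε < m → m ≤ p →
        ((badSets χ m ((p : ℝ) ^ (-δ))).card : ℝ) <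
          (p : ℝ) ^ (-((p : ℝ) ^ (-κ) * m)) * p.choose m) ∧
    (∀ p : ℕ, ∀ hp : p.Prime, haveI := Fact.mk hp
      ∀ χ : DirichletCharacter ℂ p, χ ≠ 1 → ∀ A : Finset (ZMod p), ∀ m k : ℕ,
      A.card = m → 1 ≤ m → 4 * k * m ≤ ‖S χ A‖ → m + 2 * k ≤ p →
      12 * k * (m : ℝ) ^ 2 ≤ ((p : ℝ) - 2 * k) * ‖S χ A‖ →
        (p.choose m : ℝ) ≤ 4 * (p : ℝ) ^ (4 * k) *
          ((badSets χ m (((k : ℝ) / (2 * m)) ^ 2 * ‖S χ A‖ / (m * m))).card : ℝ)) := by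
  refine ⟨Pool.Agent.Q93.PG.upper_symm, ⟨Pool.Agent.Q93.PG.sym_of_Q1s, Pool.Agent.Q93.PG.Q1s_of_sym⟩,
    ?_⟩
  intro p hp
  have hF : Fact p.Prime := ⟨hp⟩
  intro χ hχ A m k hA hm hk hN hslack
  have hm0 : (0 : ℝ) < m := by exact_mod_cast hm
  have h := Pool.Agent.Q93.PG.many_DS χ hχ A m k hA hm hk hN hslack
    (((k : ℝ) / (2 * m)) ^ 2 * ‖S χ A‖ / (m * m))
    (by
      have e : ((k : ℝ) / (2 * m)) ^ 2 * ‖S χ A‖ / (m * m) * ((m : ℝ) * m) * (4 * (m : ℝ) ^ 2) =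
          (k : ℝ) ^ 2 * ‖S χ A‖ := by
        field_simp
        ring
      rw [e]
      exact le_rfl)
  have h' : p.choose m ≤ 4 * p ^ (4 * k) *
      (badSets χ m (((k : ℝ) / (2 * m)) ^ 2 * ‖S χ A‖ / (m * m))).card := h
  exact_mod_cast h'

end Pool.Agent.Results.MP_cb27ba_nt.CountingThreshold
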