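import Mathlib
import Pool.Agent.Q263.PG.Fin3

/-!
# MP_cb27ba_nt: character sums over the difference sets of ALL dense subsets of the sets with
restricted digits, below the square root of `p`

Bilinear forms with arbitrary weights `f`, `g`: the sum of `f(a) g(b) χ(a - b)` over `a` in a set
of residues (or of powers) with restricted digits and `b` in an arbitrary set.
-/

set_option autoImplicit false

open Finset

namespace Pool.Agent.Results.MP_cb27ba_nt.DenseSubsetsOfDigitSets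

open Pool.Agent.Q263.PG

/-- the integers `n < b ^ k` whose `i`-th digit in the base `b` is in `D i`, for all `i < k` -/
def digitSet (b k : ℕ) (D : ℕ → Finset ℕ) : Finset ℕ :=
  (Finset.range (b ^ k)).filter (fun n => ∀ i < k, n / b ^ i % b ∈ D i)

/-- `T` is the set of the residues modulo `p` of the integers of the digit set, `b ^ k ≤ p`, or
the set of the powers `θ ^ n` whose exponents `n` are in the digit set, `b ^ k ≤ ord θ` -/
def IsDigitSet (p b k : ℕ) (D : ℕ → Finset ℕ) (T : Finset (ZMod p)) : Prop :=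
  (b ^ k ≤ p ∧ T = (digitSet b k D).image (fun n : ℕ => (n : ZMod p))) ∨
    ∃ θ : (ZMod p)ˣ, b ^ k ≤ orderOf θ ∧
      T = (digitSet b k D).image (fun n : ℕ => ((θ ^ n : (ZMod p)ˣ) : ZMod p))

/-- the sum of `χ(a - b)` over the pairs of elements of `A` -/
noncomputable def diffSum (p : ℕ) (χ : DirichletCharacter ℂ p) (A : Finset (ZMod p)) : ℂ :=
  ∑ a ∈ A, ∑ b ∈ A, χ (a - b)

/-- the bilinear form with the weights `f` and `g` -/
noncomputable def bilin (p : ℕ) (χ : DirichletCharacter ℂ p) (f g : ZMod p → ℂ)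
    (A B : Finset (ZMod p)) : ℂ := ∑ a ∈ A, ∑ b ∈ B, f a * g b * χ (a - b)

lemma digitSet_eq {b k : ℕ} {D : ℕ → Finset ℕ} (h : Prp b k D) : digitSet b k D = SD b k D := by
  ext n
  rw [mem_SD b k D h, digitSet, Finset.mem_filter, Finset.mem_range]

/-- the two kinds of sets -/
lemma host {p b k : ℕ} {D : ℕ → Finset ℕ} (hD : Prp b k D) {T : Finset (ZMod p)}
    (hT : IsDigitSet p b k D T) :
    (b ^ k ≤ p ∧ T = (SD b k D).image (fun n : ℕ => (n : ZMod p)) ∧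
      Set.InjOn (fun n : ℕ => (n : ZMod p)) (SD b k D)) ∨
    ∃ θ : (ZMod p)ˣ, b ^ k ≤ orderOf θ ∧
      T = (SD b k D).image (fun n : ℕ => ((θ ^ n : (ZMod p)ˣ) : ZMod p)) ∧
      Set.InjOn (fun n : ℕ => ((θ ^ n : (ZMod p)ˣ) : ZMod p)) (SD b k D) := by
  have hlt := SD_lt b k D hD
  unfold IsDigitSet at hT
  rw [digitSet_eq hD] at hT
  rcases hT with ⟨h1, h2⟩ | ⟨θ, h1, h2⟩
  · refine Or.inl ⟨h1, h2, ?_⟩
    intro n hn n' hn' he
    have g1 := hlt n hn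
    have g2 := hlt n' hn'
    dsimp only at he
    rw [ZMod.natCast_eq_natCast_iff', Nat.mod_eq_of_lt (by omega),
      Nat.mod_eq_of_lt (by omega)] at he
    exact he
  · refine Or.inr ⟨θ, h1, h2, ?_⟩
    intro n hn n' hn' he
    have g1 := hlt n hn
    have g2 := hlt n' hn'
    have he' : θ ^ n = θ ^ n' := Units.ext he
    rw [pow_inj_mod, Nat.mod_eq_of_lt (by omega), Nat.mod_eq_of_lt (by omega)] at he'
    exact he'

lemma card_le_p {p : ℕ} (_ : Fact p.Prime) (T : Finset (ZMod p)) : (T.card : ℝ) ≤ p := by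
  have h := Finset.card_le_univ T
  rw [ZMod.card] at h
  exact_mod_cast h

/-- removing the element `0` -/
lemma drop0 (p : ℕ) (χ : DirichletCharacter ℂ p) (f g : ZMod p → ℂ) (hf : ∀ x, ‖f x‖ ≤ 1)
    (hg : ∀ x, ‖g x‖ ≤ 1) (T B : Finset (ZMod p)) :
    ‖bilin p χ f g T B‖ ≤ ‖bilin p χ f g T (B.erase 0)‖ + T.card := by
  classical
  by_cases h0 : (0 : ZMod p) ∈ B
  · have e : bilin p χ f g T B = bilin p χ f g T (B.erase 0) + ∑ a ∈ T, f a * g 0 * χ (a - 0) := by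
      unfold bilin
      rw [← Finset.sum_add_distrib]
      refine Finset.sum_congr rfl fun a _ => ?_
      rw [Finset.sum_erase_add _ _ h0]
    rw [e]
    refine (norm_add_le _ _).trans ?_
    have h1 : ‖∑ a ∈ T, f a * g 0 * χ (a - 0)‖ ≤ T.card := by
      refine (norm_sum_le _ _).trans ?_
      calc ∑ a ∈ T, ‖f a * g 0 * χ (a - 0)‖ ≤ ∑ a ∈ T, (1 : ℝ) := by
            apply Finset.sum_le_sum
            intro a _
            rw [norm_mul, norm_mul]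
            exact mul_le_one₀ (mul_le_one₀ (hf _) (norm_nonneg _) (hg _)) (norm_nonneg _)
              (χ.norm_le_one _)
        _ = T.card := by simp
    linarith
  · rw [Finset.erase_eq_of_notMem h0]
    have : (0 : ℝ) ≤ T.card := Nat.cast_nonneg _
    linarith

/-- dense subsets -/
lemma sub_of (p : ℕ) (hp : 1 ≤ p) (χ : DirichletCharacter ℂ p) (T A : Finset (ZMod p))
    (hAT : A ⊆ T) (δ : ℝ) (h : ∀ f g : ZMod p → ℂ, (∀ x, ‖f x‖ ≤ 1) → (∀ x, ‖g x‖ ≤ 1) →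
      ‖bilin p χ f g T T‖ ≤ (p : ℝ) ^ (-(3 * δ)) * (T.card : ℝ) ^ 2)
    (hA : (p : ℝ) ^ (-δ) * T.card ≤ A.card) :
    ‖diffSum p χ A‖ ≤ (p : ℝ) ^ (-δ) * (A.card : ℝ) ^ 2 := by
  classical
  have hp0 : (0 : ℝ) < p := by exact_mod_cast hp
  have h1 := h (fun x => if x ∈ A then 1 else 0) (fun x => if x ∈ A then 1 else 0)
    (fun x => by split_ifs <;> simp) (fun x => by split_ifs <;> simp)
  have e : bilin p χ (fun x => if x ∈ A then 1 else 0) (fun x => if x ∈ A then 1 else 0) T T =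
      diffSum p χ A := by
    unfold bilin diffSum
    rw [← Finset.sum_subset hAT]
    · refine Finset.sum_congr rfl fun a ha => ?_
      rw [← Finset.sum_subset hAT]
      · refine Finset.sum_congr rfl fun b hb => ?_
        simp [ha, hb]
      · intro b _ hb
        simp [hb]
    · intro a _ ha
      simp [ha]
  rw [e] at h1
  refine h1.trans ?_
  have h2 : (p : ℝ) ^ (-(3 * δ)) = (p : ℝ) ^ (-δ) * ((p : ℝ) ^ (-δ)) ^ 2 := by
    rw [← Real.rpow_natCast, ← Real.rpow_mul hp0.le, ← Real.rpow_add hp0]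
    congr 1
    push_cast
    ring
  rw [h2]
  calc (p : ℝ) ^ (-δ) * ((p : ℝ) ^ (-δ)) ^ 2 * (T.card : ℝ) ^ 2 =
        (p : ℝ) ^ (-δ) * ((p : ℝ) ^ (-δ) * (T.card : ℝ)) ^ 2 := by ring
    _ ≤ _ := mul_le_mul_of_nonneg_left (pow_le_pow_left₀ (by positivity) hA 2) (by positivity)

/-- the end of the proof of the bounds for the multiplicative sets -/
lemma fin0 (p : ℕ) (δ1 v : ℝ) (t N N' X : ℝ) (hp : 1 ≤ (p : ℝ)) (ht : 0 ≤ t) (hN' : N' ≤ N)
    (hN0 : 0 ≤ N) (hNv : (p : ℝ) ^ v ≤ N) (h2 : 2 ≤ (p : ℝ) ^ (min δ1 v / 2))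
    (hX : X ≤ (p : ℝ) ^ (-δ1) * (t * N') + t) :
    X ≤ (p : ℝ) ^ (-(min δ1 v / 2)) * (t * N) := by
  have hp0 : (0 : ℝ) < p := by linarith
  set u := min δ1 v with hu
  have h3 : (p : ℝ) ^ (-δ1) ≤ (p : ℝ) ^ (-u) :=
    Real.rpow_le_rpow_of_exponent_le hp (neg_le_neg (min_le_left _ _))
  have h4 : (1 : ℝ) ≤ (p : ℝ) ^ (-u) * N := by
    have h5 : (p : ℝ) ^ u ≤ N :=
      (Real.rpow_le_rpow_of_exponent_le hp (min_le_right _ _)).trans hNv
    calc (1 : ℝ) = (p : ℝ) ^ (-u) * (p : ℝ) ^ u := by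
          rw [← Real.rpow_add hp0, neg_add_cancel, Real.rpow_zero]
      _ ≤ _ := mul_le_mul_of_nonneg_left h5 (by positivity)
  have h6 : (p : ℝ) ^ (-δ1) * (t * N') ≤ (p : ℝ) ^ (-u) * (t * N) :=
    mul_le_mul h3 (mul_le_mul_of_nonneg_left hN' ht) |> fun h => by
      rcases le_or_gt 0 N' with h0 | h0
      · exact h (mul_nonneg ht h0) (by positivity)
      · have : (p : ℝ) ^ (-δ1) * (t * N') ≤ 0 :=
          mul_nonpos_of_nonneg_of_nonpos (by positivity)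
            (mul_nonpos_of_nonneg_of_nonpos ht h0.le)
        exact this.trans (by positivity)
  have h7 : t ≤ (p : ℝ) ^ (-u) * (t * N) := by
    calc t = t * 1 := (mul_one t).symm
      _ ≤ t * ((p : ℝ) ^ (-u) * N) := mul_le_mul_of_nonneg_left h4 ht
      _ = _ := by ring
  have h8 : (p : ℝ) ^ (-u) * 2 ≤ (p : ℝ) ^ (-(u / 2)) := by
    calc (p : ℝ) ^ (-u) * 2 ≤ (p : ℝ) ^ (-u) * (p : ℝ) ^ (u / 2) :=
          mul_le_mul_of_nonneg_left h2 (by positivity)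
      _ = _ := by
          rw [← Real.rpow_add hp0]
          congr 1
          ring
  calc X ≤ (p : ℝ) ^ (-u) * (t * N) + (p : ℝ) ^ (-u) * (t * N) := by linarith
    _ = ((p : ℝ) ^ (-u) * 2) * (t * N) := by ring
    _ ≤ _ := mul_le_mul_of_nonneg_right h8 (by positivity)

lemma large (a : ℝ) (ha : 0 < a) (M : ℝ) : ∃ P : ℕ, ∀ p : ℕ, P ≤ p → M ≤ (p : ℝ) ^ a := by
  have h1 := (tendsto_rpow_atTop ha).comp (tendsto_natCast_atTop_atTop (R := ℝ))
  obtain ⟨P, hP⟩ := Filter.eventually_atTop.1 (Filter.tendsto_atTop.1 h1 M)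
  exact ⟨P, fun p hp => hP p hp⟩

/-- the estimates for the sets `B` with and without the element `0` -/
lemma unite (p b k : ℕ) (hprime : Fact p.Prime) (χ : DirichletCharacter ℂ p) (D : ℕ → Finset ℕ)
    (hD : Prp b k D) (T : Finset (ZMod p)) (hT : IsDigitSet p b k D T) (δ1 v : ℝ)
    (hδ1 : 0 < δ1) (hv : 0 < v) (h2 : 2 ≤ (p : ℝ) ^ (min δ1 v / 2))
    (Q : ℕ → Prop)
    (h : (b ^ k ≤ p → ∀ B : Finset (ZMod p), Q B.card →
          ∀ (f : ℕ → ℂ) (g : ZMod p → ℂ), (∀ n, ‖f n‖ ≤ 1) → (∀ x, ‖g x‖ ≤ 1) →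
            ‖∑ n ∈ SD b k D, ∑ x ∈ B, f n * g x * χ ((n : ZMod p) - x)‖ ≤
              (p : ℝ) ^ (-δ1) * (((SD b k D).card : ℝ) * B.card)) ∧
        (∀ θ : (ZMod p)ˣ, b ^ k ≤ orderOf θ → ∀ B : Finset (ZMod p), (0 : ZMod p) ∉ B →
          Q B.card →
          ∀ (f : ℕ → ℂ) (g : ZMod p → ℂ), (∀ n, ‖f n‖ ≤ 1) → (∀ x, ‖g x‖ ≤ 1) →
            ‖∑ n ∈ SD b k D, ∑ x ∈ B, f n * g x * χ (((θ ^ n : (ZMod p)ˣ) : ZMod p) - x)‖ ≤
              (p : ℝ) ^ (-δ1) * (((SD b k D).card : ℝ) * B.card)))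
    (B : Finset (ZMod p)) (hQ : Q B.card) (hQ' : Q (B.erase 0).card)
    (hBv : (p : ℝ) ^ v ≤ (B.card : ℝ)) (f g : ZMod p → ℂ) (hf : ∀ x, ‖f x‖ ≤ 1)
    (hg : ∀ x, ‖g x‖ ≤ 1) :
    ‖bilin p χ f g T B‖ ≤ (p : ℝ) ^ (-(min δ1 v / 2)) * (T.card * B.card) := by
  classical
  have hp1 : (1 : ℝ) ≤ p := by exact_mod_cast (Fact.out : p.Prime).one_le
  rcases host hD hT with ⟨h1, rfl, hinj⟩ | ⟨θ, h1, rfl, hinj⟩
  · rw [Finset.card_image_of_injOn hinj]
    have h3 := h.1 h1 B hQ (fun n => f (n : ZMod p)) g (fun n => hf _) hg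
    unfold bilin
    rw [Finset.sum_image hinj]
    refine h3.trans ?_
    apply mul_le_mul_of_nonneg_right _ (by positivity)
    apply Real.rpow_le_rpow_of_exponent_le hp1
    have h4 : min δ1 v ≤ δ1 := min_le_left _ _
    have h5 : 0 < min δ1 v := lt_min hδ1 hv
    linarith
  · rw [Finset.card_image_of_injOn hinj]
    have h3 := h.2 θ h1 (B.erase 0) (Finset.notMem_erase _ _) hQ'
      (fun n => f ((θ ^ n : (ZMod p)ˣ) : ZMod p)) g (fun n => hf _) hg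
    have h4 := drop0 p χ f g hf hg
      ((SD b k D).image (fun n : ℕ => ((θ ^ n : (ZMod p)ˣ) : ZMod p))) B
    have h5 : ‖bilin p χ f g ((SD b k D).image (fun n : ℕ => ((θ ^ n : (ZMod p)ˣ) : ZMod p)))
        (B.erase 0)‖ ≤ (p : ℝ) ^ (-δ1) * (((SD b k D).card : ℝ) * (B.erase 0).card) := by
      unfold bilin
      rw [Finset.sum_image hinj]
      exact h3
    rw [Finset.card_image_of_injOn hinj] at h4
    apply fin0 p δ1 v _ _ ((B.erase 0).card : ℝ) _ hp1 (Nat.cast_nonneg _) _ (Nat.cast_nonneg _)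
      hBv h2
    · linarith
    · exact_mod_cast Finset.card_le_card (Finset.erase_subset _ _)

/-- the conditions for `B` without `0` -/
lemma half (p : ℕ) (B : Finset (ZMod p)) (h : 2 ≤ B.card) :
    (B.card : ℝ) ≤ 2 * ((B.erase 0).card : ℝ) := by
  classical
  have h1 : B.card - 1 ≤ (B.erase 0).card := Finset.pred_card_le_card_erase
  exact_mod_cast (by omega : B.card ≤ 2 * (B.erase 0).card)

/-- part (1), bilinear forms -/
theorem part1 (b : ℕ) (hb : 2 ≤ b) (ε : ℝ) (hε : 0 < ε) : ∃ c δ : ℝ, 0 < c ∧ 0 < δ ∧ ∃ P : ℕ,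
    ∀ p : ℕ, ∀ _ : Fact p.Prime, P ≤ p → ∀ χ : DirichletCharacter ℂ p, χ ≠ 1 →
      ∀ (k : ℕ) (D : ℕ → Finset ℕ), Prp b k D → ∀ T : Finset (ZMod p), IsDigitSet p b k D T →
        (p : ℝ) ^ ε ≤ (T.card : ℝ) → ∀ B : Finset (ZMod p),
          (p : ℝ) ^ (3 / 2 - c) ≤ (T.card : ℝ) * (B.card : ℝ) ^ 2 →
          ∀ f g : ZMod p → ℂ, (∀ x, ‖f x‖ ≤ 1) → (∀ x, ‖g x‖ ≤ 1) →
            ‖bilin p χ f g T B‖ ≤ (p : ℝ) ^ (-δ) * (T.card * B.card) := by
  obtain ⟨c, δ1, hc, hδ1, P1, h1⟩ := partA b hb ε hε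
  obtain ⟨P2, hP2⟩ := large (c / 2) (by linarith) 4
  have hm : 0 < min δ1 (1 / 8 : ℝ) / 2 := by
    have : 0 < min δ1 (1 / 8 : ℝ) := lt_min hδ1 (by norm_num)
    linarith
  obtain ⟨P3, hP3⟩ := large (min δ1 (1 / 8) / 2) hm 2
  obtain ⟨P4, hP4⟩ := large (1 / 8) (by norm_num) 2
  refine ⟨min (c / 2) (1 / 4), min δ1 (1 / 8) / 2, lt_min (by linarith) (by norm_num), hm,
    max (max P1 P2) (max P3 P4), ?_⟩
  intro p hprime hp χ hχ k D hD T hT hA B hB f g hf hg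
  have hp1 : P1 ≤ p := ((le_max_left _ _).trans (le_max_left _ _)).trans hp
  have hp2 := hP2 p (((le_max_right _ _).trans (le_max_left _ _)).trans hp)
  have hp3 := hP3 p (((le_max_left _ _).trans (le_max_right _ _)).trans hp)
  have hp4 := hP4 p (((le_max_right _ _).trans (le_max_right _ _)).trans hp)
  have hpge : (1 : ℝ) ≤ p := by exact_mod_cast (Fact.out : p.Prime).one_le
  have hp0 : (0 : ℝ) < p := by linarith
  have hcard : T.card = (SD b k D).card := by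
    rcases host hD hT with ⟨_, rfl, hinj⟩ | ⟨θ, _, rfl, hinj⟩ <;>
      exact Finset.card_image_of_injOn hinj
  have hTp := card_le_p hprime T
  -- the set `B` is large
  have hBv : (p : ℝ) ^ (1 / 8 : ℝ) ≤ (B.card : ℝ) := by
    have h3 : (p : ℝ) * (p : ℝ) ^ (1 / 4 : ℝ) ≤ p * (B.card : ℝ) ^ 2 := by
      calc (p : ℝ) * (p : ℝ) ^ (1 / 4 : ℝ) = (p : ℝ) ^ (3 / 2 - 1 / 4 : ℝ) := by
            rw [← Real.rpow_one_add' hp0.le (by norm_num)]
            norm_num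
        _ ≤ (p : ℝ) ^ (3 / 2 - min (c / 2) (1 / 4)) :=
            Real.rpow_le_rpow_of_exponent_le hpge (by
              have := min_le_right (c / 2) (1 / 4 : ℝ)
              linarith)
        _ ≤ (T.card : ℝ) * (B.card : ℝ) ^ 2 := hB
        _ ≤ _ := mul_le_mul_of_nonneg_right hTp (by positivity)
    have h4 : (p : ℝ) ^ (1 / 4 : ℝ) ≤ (B.card : ℝ) ^ 2 := le_of_mul_le_mul_left h3 hp0
    have h5 : ((p : ℝ) ^ (1 / 8 : ℝ)) ^ 2 ≤ (B.card : ℝ) ^ 2 := by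
      refine le_trans (le_of_eq ?_) h4
      rw [← Real.rpow_natCast, ← Real.rpow_mul hp0.le]
      norm_num
    exact (pow_le_pow_iff_left₀ (by positivity) (Nat.cast_nonneg _) (by norm_num)).1 h5
  have hB2 : 2 ≤ B.card := by exact_mod_cast hp4.trans hBv
  rw [hcard] at hA
  apply unite p b k hprime χ D hD T hT δ1 (1 / 8) hδ1 (by norm_num) hp3
    (fun n => (p : ℝ) ^ (3 / 2 - c) ≤ ((SD b k D).card : ℝ) * (n : ℝ) ^ 2)
    (h1 p hprime hp1 χ hχ k D hD hA) B _ _ hBv f g hf hg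
  · rw [hcard] at hB
    refine le_trans (Real.rpow_le_rpow_of_exponent_le hpge ?_) hB
    have := min_le_left (c / 2) (1 / 4 : ℝ)
    linarith
  · rw [hcard] at hB
    have h6 := half p B hB2
    have h7 : (p : ℝ) ^ (3 / 2 - c) * 4 ≤
        ((SD b k D).card : ℝ) * ((B.erase 0).card : ℝ) ^ 2 * 4 := by
      calc (p : ℝ) ^ (3 / 2 - c) * 4 ≤ (p : ℝ) ^ (3 / 2 - c) * (p : ℝ) ^ (c / 2) :=
            mul_le_mul_of_nonneg_left hp2 (by positivity)
        _ = (p : ℝ) ^ (3 / 2 - c / 2) := by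
            rw [← Real.rpow_add hp0]
            congr 1
            ring
        _ ≤ (p : ℝ) ^ (3 / 2 - min (c / 2) (1 / 4)) :=
            Real.rpow_le_rpow_of_exponent_le hpge (by
              have := min_le_left (c / 2) (1 / 4 : ℝ)
              linarith)
        _ ≤ ((SD b k D).card : ℝ) * (B.card : ℝ) ^ 2 := hB
        _ ≤ ((SD b k D).card : ℝ) * (2 * ((B.erase 0).card : ℝ)) ^ 2 :=
            mul_le_mul_of_nonneg_left (pow_le_pow_left₀ (Nat.cast_nonneg _) h6 2)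
              (Nat.cast_nonneg _)
        _ = _ := by ring
    exact le_of_mul_le_mul_right h7 (by norm_num)

/-- part (2), bilinear forms -/
theorem part2 (b : ℕ) (hb : 3 ≤ b) (ε : ℝ) (hε : 0 < ε) : ∃ δ : ℝ, 0 < δ ∧ ∃ P : ℕ,
    ∀ p : ℕ, ∀ _ : Fact p.Prime, P ≤ p → ∀ χ : DirichletCharacter ℂ p, χ ≠ 1 →
      ∀ (k : ℕ) (D : ℕ → Finset ℕ), Sid b k D → ∀ T : Finset (ZMod p), IsDigitSet p b k D T →
        (p : ℝ) ^ ε ≤ (T.card : ℝ) → ∀ B : Finset (ZMod p),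
          (p : ℝ) ^ (3 + ε) ≤ (T.card : ℝ) ^ (107 / 40 : ℝ) * (B.card : ℝ) ^ 4 →
          ∀ f g : ZMod p → ℂ, (∀ x, ‖f x‖ ≤ 1) → (∀ x, ‖g x‖ ≤ 1) →
            ‖bilin p χ f g T B‖ ≤ (p : ℝ) ^ (-δ) * (T.card * B.card) := by
  obtain ⟨δ1, hδ1, P1, h1⟩ := partB b hb (ε / 2) (by linarith)
  obtain ⟨P2, hP2⟩ := large (ε / 2) (by linarith) 16
  have hm : 0 < min δ1 (1 / 16 : ℝ) / 2 := by
    have : 0 < min δ1 (1 / 16 : ℝ) := lt_min hδ1 (by norm_num)
    linarith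
  obtain ⟨P3, hP3⟩ := large (min δ1 (1 / 16) / 2) hm 2
  obtain ⟨P4, hP4⟩ := large (1 / 16) (by norm_num) 2
  refine ⟨min δ1 (1 / 16) / 2, hm, max (max P1 P2) (max P3 P4), ?_⟩
  intro p hprime hp χ hχ k D hD T hT hA B hB f g hf hg
  have hp1 : P1 ≤ p := ((le_max_left _ _).trans (le_max_left _ _)).trans hp
  have hp2 := hP2 p (((le_max_right _ _).trans (le_max_left _ _)).trans hp)
  have hp3 := hP3 p (((le_max_left _ _).trans (le_max_right _ _)).trans hp)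
  have hp4 := hP4 p (((le_max_right _ _).trans (le_max_right _ _)).trans hp)
  have hpge : (1 : ℝ) ≤ p := by exact_mod_cast (Fact.out : p.Prime).one_le
  have hp0 : (0 : ℝ) < p := by linarith
  have hDp := hD.prp hb
  have hcard : T.card = (SD b k D).card := by
    rcases host hDp hT with ⟨_, rfl, hinj⟩ | ⟨θ, _, rfl, hinj⟩ <;>
      exact Finset.card_image_of_injOn hinj
  have hTp := card_le_p hprime T
  -- the set `B` is large
  have hBv : (p : ℝ) ^ (1 / 16 : ℝ) ≤ (B.card : ℝ) := by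
    have h3 : (p : ℝ) ^ (107 / 40 : ℝ) * (p : ℝ) ^ (1 / 4 : ℝ) ≤
        (p : ℝ) ^ (107 / 40 : ℝ) * (B.card : ℝ) ^ 4 := by
      calc (p : ℝ) ^ (107 / 40 : ℝ) * (p : ℝ) ^ (1 / 4 : ℝ) ≤ (p : ℝ) ^ (3 + ε) := by
            rw [← Real.rpow_add hp0]
            exact Real.rpow_le_rpow_of_exponent_le hpge (by linarith)
        _ ≤ (T.card : ℝ) ^ (107 / 40 : ℝ) * (B.card : ℝ) ^ 4 := hB
        _ ≤ _ := mul_le_mul_of_nonneg_right
            (Real.rpow_le_rpow (Nat.cast_nonneg _) hTp (by norm_num)) (by positivity)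
    have h4 : (p : ℝ) ^ (1 / 4 : ℝ) ≤ (B.card : ℝ) ^ 4 :=
      le_of_mul_le_mul_left h3 (by positivity)
    have h5 : ((p : ℝ) ^ (1 / 16 : ℝ)) ^ 4 ≤ (B.card : ℝ) ^ 4 := by
      refine le_trans (le_of_eq ?_) h4
      rw [← Real.rpow_natCast, ← Real.rpow_mul hp0.le]
      norm_num
    exact (pow_le_pow_iff_left₀ (by positivity) (Nat.cast_nonneg _) (by norm_num)).1 h5
  have hB2 : 2 ≤ B.card := by exact_mod_cast hp4.trans hBv
  rw [hcard] at hA
  apply unite p b k hprime χ D hDp T hT δ1 (1 / 16) hδ1 (by norm_num) hp3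
    (fun n => (p : ℝ) ^ (3 + ε / 2) ≤ ((SD b k D).card : ℝ) ^ (107 / 40 : ℝ) * (n : ℝ) ^ 4)
    (h1 p hprime hp1 χ hχ k D hD
      ((Real.rpow_le_rpow_of_exponent_le hpge (by linarith)).trans hA)) B _ _ hBv f g hf hg
  · rw [hcard] at hB
    exact le_trans (Real.rpow_le_rpow_of_exponent_le hpge (by linarith)) hB
  · rw [hcard] at hB
    have h6 := half p B hB2
    have h7 : (p : ℝ) ^ (3 + ε / 2) * 16 ≤
        ((SD b k D).card : ℝ) ^ (107 / 40 : ℝ) * ((B.erase 0).card : ℝ) ^ 4 * 16 := by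
      calc (p : ℝ) ^ (3 + ε / 2) * 16 ≤ (p : ℝ) ^ (3 + ε / 2) * (p : ℝ) ^ (ε / 2) :=
            mul_le_mul_of_nonneg_left hp2 (by positivity)
        _ = (p : ℝ) ^ (3 + ε) := by
            rw [← Real.rpow_add hp0]
            congr 1
            ring
        _ ≤ ((SD b k D).card : ℝ) ^ (107 / 40 : ℝ) * (B.card : ℝ) ^ 4 := hB
        _ ≤ ((SD b k D).card : ℝ) ^ (107 / 40 : ℝ) * (2 * ((B.erase 0).card : ℝ)) ^ 4 :=
            mul_le_mul_of_nonneg_left (pow_le_pow_left₀ (Nat.cast_nonneg _) h6 4)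
              (by positivity)
        _ = _ := by ring
    exact le_of_mul_le_mul_right h7 (by norm_num)

theorem result (b : ℕ) (hb : 3 ≤ b) :
    -- (1) arbitrary sets of digits, a digit missing at every place
    (∀ ε : ℝ, 0 < ε → ∃ c δ : ℝ, 0 < c ∧ 0 < δ ∧ ∃ P : ℕ, ∀ p : ℕ, ∀ _ : Fact p.Prime, P ≤ p →
      ∀ χ : DirichletCharacter ℂ p, χ ≠ 1 → ∀ (k : ℕ) (D : ℕ → Finset ℕ),
        (∀ i < k, (D i).Nonempty ∧ (∀ d ∈ D i, d < b) ∧ ∃ d < b, d ∉ D i) →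
        ∀ T : Finset (ZMod p), IsDigitSet p b k D T → (p : ℝ) ^ ε ≤ (T.card : ℝ) →
          (∀ B : Finset (ZMod p), (p : ℝ) ^ (3 / 2 - c) ≤ (T.card : ℝ) * (B.card : ℝ) ^ 2 →
            ∀ f g : ZMod p → ℂ, (∀ x, ‖f x‖ ≤ 1) → (∀ x, ‖g x‖ ≤ 1) →
              ‖bilin p χ f g T B‖ ≤ (p : ℝ) ^ (-δ) * (T.card * B.card)) ∧
          ((p : ℝ) ^ (1 / 2 - c) ≤ (T.card : ℝ) → ∀ A ⊆ T, (p : ℝ) ^ (-δ) * T.card ≤ A.card →
            ‖diffSum p χ A‖ ≤ (p : ℝ) ^ (-δ) * (A.card : ℝ) ^ 2)) ∧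
    -- (2) the digits at every place are a Sidon set modulo `b`
    (∀ ε : ℝ, 0 < ε → ∃ δ : ℝ, 0 < δ ∧ ∃ P : ℕ, ∀ p : ℕ, ∀ _ : Fact p.Prime, P ≤ p →
      ∀ χ : DirichletCharacter ℂ p, χ ≠ 1 → ∀ (k : ℕ) (D : ℕ → Finset ℕ),
        (∀ i < k, (D i).Nonempty ∧ (∀ d ∈ D i, d < b) ∧
          ∀ x ∈ D i, ∀ y ∈ D i, ∀ z ∈ D i, ∀ w ∈ D i, (x + y) % b = (z + w) % b →
            (x = z ∧ y = w) ∨ (x = w ∧ y = z)) →
        ∀ T : Finset (ZMod p), IsDigitSet p b k D T → (p : ℝ) ^ ε ≤ (T.card : ℝ) →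
          ∀ B : Finset (ZMod p),
            (p : ℝ) ^ (3 + ε) ≤ (T.card : ℝ) ^ (107 / 40 : ℝ) * (B.card : ℝ) ^ 4 →
            ∀ f g : ZMod p → ℂ, (∀ x, ‖f x‖ ≤ 1) → (∀ x, ‖g x‖ ≤ 1) →
              ‖bilin p χ f g T B‖ ≤ (p : ℝ) ^ (-δ) * (T.card * B.card)) ∧
    -- (3) difference sets of all dense subsets, from `p ^ 0.374` on
    (∃ δ : ℝ, 0 < δ ∧ ∃ P : ℕ, ∀ p : ℕ, ∀ _ : Fact p.Prime, P ≤ p →
      ∀ χ : DirichletCharacter ℂ p, χ ≠ 1 → ∀ (k : ℕ) (D : ℕ → Finset ℕ),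
        (∀ i < k, (D i).Nonempty ∧ (∀ d ∈ D i, d < b) ∧
          ∀ x ∈ D i, ∀ y ∈ D i, ∀ z ∈ D i, ∀ w ∈ D i, (x + y) % b = (z + w) % b →
            (x = z ∧ y = w) ∨ (x = w ∧ y = z)) →
        ∀ T : Finset (ZMod p), IsDigitSet p b k D T →
          (p : ℝ) ^ (187 / 500 : ℝ) ≤ (T.card : ℝ) →
          (∀ f g : ZMod p → ℂ, (∀ x, ‖f x‖ ≤ 1) → (∀ x, ‖g x‖ ≤ 1) →
            ‖bilin p χ f g T T‖ ≤ (p : ℝ) ^ (-(3 * δ)) * (T.card : ℝ) ^ 2) ∧
          ∀ A ⊆ T, (p : ℝ) ^ (-δ) * T.card ≤ A.card →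
            ‖diffSum p χ A‖ ≤ (p : ℝ) ^ (-δ) * (A.card : ℝ) ^ 2) := by
  classical
  refine ⟨?_, part2 b hb, ?_⟩
  · intro ε hε
    obtain ⟨c, δ, hc, hδ, P, h⟩ := part1 b (by omega) ε hε
    refine ⟨c / 3, δ / 3, by linarith, by linarith, P, ?_⟩
    intro p hprime hp χ hχ k D hD T hT hA
    have hpge : (1 : ℝ) ≤ p := by exact_mod_cast (Fact.out : p.Prime).one_le
    have hp0 : (0 : ℝ) < p := by linarith
    have h1 := h p hprime hp χ hχ k D hD T hT hA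
    constructor
    · intro B hB f g hf hg
      refine (h1 B ((Real.rpow_le_rpow_of_exponent_le hpge (by linarith)).trans hB)
        f g hf hg).trans ?_
      apply mul_le_mul_of_nonneg_right _ (by positivity)
      exact Real.rpow_le_rpow_of_exponent_le hpge (by linarith)
    · intro hT2 A hAT hAc
      apply sub_of p (Fact.out : p.Prime).one_le χ T A hAT (δ / 3) _ hAc
      intro f g hf hg
      have h2 := h1 T (by
        have h3 : (p : ℝ) ^ (3 / 2 - c) = ((p : ℝ) ^ (1 / 2 - c / 3)) ^ 3 := by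
          rw [← Real.rpow_natCast, ← Real.rpow_mul hp0.le]
          congr 1
          push_cast
          ring
        rw [h3]
        calc ((p : ℝ) ^ (1 / 2 - c / 3)) ^ 3 ≤ (T.card : ℝ) ^ 3 :=
              pow_le_pow_left₀ (by positivity) hT2 3
          _ = _ := by ring) f g hf hg
      have e : 3 * (δ / 3) = δ := by ring
      rw [e, sq]
      exact h2
  · obtain ⟨δ, hδ, P, h⟩ := partC b hb
    refine ⟨δ / 3, by linarith, P, ?_⟩
    intro p hprime hp χ hχ k D hD T hT hA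
    have hDs : Sid b k D := hD
    have hDp := hDs.prp hb
    have key : ∀ f g : ZMod p → ℂ, (∀ x, ‖f x‖ ≤ 1) → (∀ x, ‖g x‖ ≤ 1) →
        ‖bilin p χ f g T T‖ ≤ (p : ℝ) ^ (-(3 * (δ / 3))) * (T.card : ℝ) ^ 2 := by
      intro f g hf hg
      have e : 3 * (δ / 3) = δ := by ring
      rw [e]
      rcases host hDp hT with ⟨h1, rfl, hinj⟩ | ⟨θ, h1, rfl, hinj⟩
      · rw [Finset.card_image_of_injOn hinj] at hA ⊢
        have h2 := (h p hprime hp χ hχ k D hDs hA).1 h1 (fun n => f (n : ZMod p))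
          (fun n => g (n : ZMod p)) (fun n => hf _) (fun n => hg _)
        unfold bilin
        rw [Finset.sum_image hinj]
        have e2 : ∀ m ∈ SD b k D, ∑ x ∈ (SD b k D).image (fun n : ℕ => (n : ZMod p)),
            f (m : ZMod p) * g x * χ ((m : ZMod p) - x) =
            ∑ n ∈ SD b k D, f (m : ZMod p) * g (n : ZMod p) * χ ((m : ZMod p) - (n : ZMod p)) :=
          fun m _ => Finset.sum_image hinj
        rw [Finset.sum_congr rfl e2]
        exact h2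
      · rw [Finset.card_image_of_injOn hinj] at hA ⊢
        have h2 := (h p hprime hp χ hχ k D hDs hA).2 θ h1
          (fun n => f ((θ ^ n : (ZMod p)ˣ) : ZMod p))
          (fun n => g ((θ ^ n : (ZMod p)ˣ) : ZMod p)) (fun n => hf _) (fun n => hg _)
        unfold bilin
        rw [Finset.sum_image hinj]
        have e2 : ∀ m ∈ SD b k D,
            ∑ x ∈ (SD b k D).image (fun n : ℕ => ((θ ^ n : (ZMod p)ˣ) : ZMod p)),
            f ((θ ^ m : (ZMod p)ˣ) : ZMod p) * g x * χ (((θ ^ m : (ZMod p)ˣ) : ZMod p) - x) =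
            ∑ n ∈ SD b k D, f ((θ ^ m : (ZMod p)ˣ) : ZMod p) * g ((θ ^ n : (ZMod p)ˣ) : ZMod p) *
              χ (((θ ^ m : (ZMod p)ˣ) : ZMod p) - ((θ ^ n : (ZMod p)ˣ) : ZMod p)) :=
          fun m _ => Finset.sum_image hinj
        rw [Finset.sum_congr rfl e2]
        exact h2
    exact ⟨key, fun A hAT hAc => sub_of p (Fact.out : p.Prime).one_le χ T A hAT (δ / 3) key hAc⟩

end Pool.Agent.Results.MP_cb27ba_nt.DenseSubsetsOfDigitSets
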