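import Pool.Agent.Q132.GP.Core
import Pool.Agent.Q132.GP.Poly
import Pool.Agent.Q132.GP.Numbers

/-!
# Character sums over difference sets: subsets in general position of a given set suffice

`S χ A = ∑_{a, b ∈ A} χ(a - b)`.  A power saving for all sets with more than `p^δ` elements is
equivalent to a power saving for the sets `p^δ < |A| ≤ 2 p^δ` which are contained in one set `I` of
density `p^(-κ δ)` (of our choice, for example the interval `[0, p^(1-κ δ))`) and which are in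
general position with respect to at most `p^(κ δ)` thin relations of our choice, for example have no
algebraic relation of complexity `h`.  It is also equivalent to the Paley graph conjecture (two
arbitrary sets) for all even characters.
-/

namespace Pool.Agent.Results.MP_cb27ba_nt.GenericSubsetsSuffice

open Finset

/-- The sum of the problem. -/
noncomputable def S {p : ℕ} (χ : DirichletCharacter ℂ p) (A : Finset (ZMod p)) : ℂ :=
  ∑ a ∈ A, ∑ b ∈ A, χ (a - b)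

/-- The problem. -/
def Q1 : Prop :=
  ∀ δ : ℝ, 0 < δ → ∃ τ : ℝ, 0 < τ ∧ ∃ P : ℕ, ∀ p : ℕ, p.Prime → P ≤ p →
    ∀ A : Finset (ZMod p), (p : ℝ) ^ δ < (A.card : ℝ) →
      ∀ χ : DirichletCharacter ℂ p, χ ≠ 1 → ‖S χ A‖ < (A.card : ℝ) ^ (2 - τ)

/-- A relation with `h` places is `D`-thin if in every product of `h` finite sets with at least `m`
elements each at most the proportion `D / m` of the points belongs to it.  Examples: the zero set of
a nonzero polynomial of degree at most `D` (Schwartz and Zippel), the graph of any function of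
`h - 1` variables (`D = 1`). -/
def Thin {p h : ℕ} (D : ℕ) (R : Set (Fin h → ZMod p)) : Prop :=
  ∀ (X : Fin h → Finset (ZMod p)) (m : ℕ), (∀ i, m ≤ (X i).card) →
    m * ({x : Fin h → ZMod p | (∀ i, x i ∈ X i) ∧ x ∈ R}).ncard ≤ D * ∏ i, (X i).card

/-- No tuple of distinct elements of `A` satisfies the relation. -/
def Avoids {p h : ℕ} (R : Set (Fin h → ZMod p)) (A : Finset (ZMod p)) : Prop :=
  ∀ x : Fin h → ZMod p, Function.Injective x → (∀ i, x i ∈ A) → x ∉ R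

/-- The statement of Q1 for subsets in general position of given sets: for every `δ > 0` and every
large prime `p` there are a set `I` with at least `p^(1 - κ δ)` elements and `M` relations, all
`D`-thin, `M D ≤ p^(κ δ)`, such that the power saving holds for all `A ⊆ I` with
`p^δ < |A| ≤ 2 p^δ` which avoid the `M` relations. -/
def Reduced (h : ℕ) (κ : ℝ) : Prop :=
  ∀ δ : ℝ, 0 < δ → ∃ τ : ℝ, 0 < τ ∧ ∃ P : ℕ, ∀ p : ℕ, p.Prime → P ≤ p →
    ∃ (I : Finset (ZMod p)) (M D : ℕ) (R : Fin M → Set (Fin h → ZMod p)),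
      (p : ℝ) ^ (1 - κ * δ) ≤ I.card ∧ (M : ℝ) * D ≤ (p : ℝ) ^ (κ * δ) ∧ (∀ k, Thin D (R k)) ∧
      ∀ A : Finset (ZMod p), A ⊆ I → (p : ℝ) ^ δ < (A.card : ℝ) →
        (A.card : ℝ) ≤ 2 * (p : ℝ) ^ δ → (∀ k, Avoids (R k) A) →
        ∀ χ : DirichletCharacter ℂ p, χ ≠ 1 → ‖S χ A‖ < (A.card : ℝ) ^ (2 - τ)

/-- No algebraic relation of complexity `h`: no polynomial in `h` variables, of degree at most `h`
in each of them, with integer coefficients in `[-h, h]` not all zero, vanishes modulo `p` at `h`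
distinct elements of `A`. -/
def NoRelation {p : ℕ} (h : ℕ) (A : Finset (ZMod p)) : Prop :=
  ∀ c : (Fin h → Fin (h + 1)) → ℤ, c ≠ 0 → (∀ e, |c e| ≤ h) →
    ∀ x : Fin h → ZMod p, Function.Injective x → (∀ i, x i ∈ A) →
      ∑ e, (c e : ZMod p) * ∏ i, x i ^ (e i : ℕ) ≠ 0

/-- The statement for sets of integers in `[0, p^(1 - h δ))` without algebraic relations of
complexity `h`. -/
def Explicit (h : ℕ) : Prop :=
  ∀ δ : ℝ, 0 < δ → ∃ τ : ℝ, 0 < τ ∧ ∃ P : ℕ, ∀ p : ℕ, p.Prime → P ≤ p →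
    ∀ A : Finset (ZMod p), (∀ a ∈ A, (a.val : ℝ) < (p : ℝ) ^ (1 - h * δ)) →
      (p : ℝ) ^ δ < (A.card : ℝ) → (A.card : ℝ) ≤ 2 * (p : ℝ) ^ δ → NoRelation h A →
      ∀ χ : DirichletCharacter ℂ p, χ ≠ 1 → ‖S χ A‖ < (A.card : ℝ) ^ (2 - τ)

/-- The Paley graph conjecture (two arbitrary sets) for the even characters. -/
def EvenPairs : Prop :=
  ∀ ε : ℝ, 0 < ε → ∃ p₀ : ℕ, ∃ δ : ℝ, 0 < δ ∧ ∀ p : ℕ, p.Prime → p₀ < p →
    ∀ A B : Finset (ZMod p), (p : ℝ) ^ ε < A.card → (p : ℝ) ^ ε < B.card →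
    ∀ χ : DirichletCharacter ℂ p, χ ≠ 1 → χ (-1) = 1 →
      ‖∑ a ∈ A, ∑ b ∈ B, χ (a + b)‖ ≤ (p : ℝ) ^ (-δ) * A.card * B.card

/-- a power of the cardinality against a power of `p` -/
lemma saving (p : ℕ) (hp : 1 ≤ p) (ε τ : ℝ) (hτ : 0 < τ) (m : ℕ)
    (hm : (p : ℝ) ^ ε < m) : (m : ℝ) ^ (2 - τ) ≤ (m : ℝ) * m * (p : ℝ) ^ (-(ε * τ)) := by
  have hp0 : (0 : ℝ) < p := by exact_mod_cast hp
  have hm0 : (0 : ℝ) < m := lt_trans (Real.rpow_pos_of_pos hp0 _) hm
  have h1 : (m : ℝ) ^ (2 - τ) = (m : ℝ) * m * (m : ℝ) ^ (-τ) := by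
    rw [show (2 : ℝ) - τ = 2 + (-τ) by ring, Real.rpow_add hm0]
    congr 1
    rw [show (2 : ℝ) = ((2 : ℕ) : ℝ) by norm_num, Real.rpow_natCast]
    ring
  rw [h1]
  apply mul_le_mul_of_nonneg_left _ (by positivity)
  calc (m : ℝ) ^ (-τ) ≤ ((p : ℝ) ^ ε) ^ (-τ) :=
        Real.rpow_le_rpow_of_nonpos (Real.rpow_pos_of_pos hp0 _) hm.le (by linarith)
    _ = (p : ℝ) ^ (-(ε * τ)) := by rw [← Real.rpow_mul hp0.le]; congr 1; ring

lemma reduced_imp (h : ℕ) (κ : ℝ) (hκ : 0 ≤ κ) (hR : Reduced h κ) : Q1 := by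
  intro ε0 hε0
  set ε := min ε0 1 with hεd
  have hε : 0 < ε := lt_min hε0 one_pos
  have hε1 : ε ≤ 1 := min_le_right _ _
  obtain ⟨ε', hε', hnum⟩ := Pool.Agent.Q132.GP.numbers ε κ h hε hε1 hκ
  obtain ⟨τ', hτ', P₀, hred⟩ := hR ε' hε'
  obtain ⟨δ, hδ, P, hP⟩ := hnum (ε' * τ') (by positivity)
  refine ⟨δ, hδ, max P₀ P, fun p hp hpp A hA χ hχ => ?_⟩
  haveI := Fact.mk hp
  by_contra hcon
  push Not at hcon
  have hX1 : (1 : ℝ) ≤ p := by exact_mod_cast hp.one_lt.le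
  have hX0 : (0 : ℝ) < p := by linarith
  have hA' : (p : ℝ) ^ ε < A.card :=
    lt_of_le_of_lt (Real.rpow_le_rpow_of_exponent_le hX1 (min_le_left _ _)) hA
  obtain ⟨I, M, D, R, hI, hMD, hThin, hbd⟩ := hred p hp (le_trans (le_max_left _ _) hpp)
  obtain ⟨h1, h2, h3, n, hn, h4, h5, h6⟩ := hP p (le_trans (le_max_right _ _) hpp) hp.one_lt.le
    A.card A.card I.card I.card M D hA' hA' hI hI hMD
  have hη : (0 : ℝ) < (p : ℝ) ^ (-δ) := Real.rpow_pos_of_pos hX0 _
  have hAr : (0 : ℝ) < A.card := lt_trans (Real.rpow_pos_of_pos hX0 _) hA'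
  have hApos : 0 < A.card := by exact_mod_cast hAr
  have hAp : (A.card : ℝ) ≤ p := by
    have := card_le_univ A
    rw [ZMod.card] at this
    exact_mod_cast this
  have hS : (p : ℝ) ^ (-δ) * ((A.card : ℝ) * A.card) ≤ ‖S χ A‖ := by
    refine le_trans ?_ hcon
    rw [show (2 : ℝ) - δ = 2 + (-δ) by ring, Real.rpow_add hAr,
      show (2 : ℝ) = ((2 : ℕ) : ℝ) by norm_num, Real.rpow_natCast, sq, mul_comm]
    apply mul_le_mul_of_nonneg_left _ (by positivity)
    exact Real.rpow_le_rpow_of_nonpos hAr hAp (by linarith)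
  obtain ⟨A₁, hAI, cA, hgen, hbig⟩ := Pool.Agent.Q132.GP.core_one χ A I
    ((p : ℝ) ^ (-δ)) hη h1 hS hApos n (Pool.Agent.Q132.GP.msz p ε') hn h2 h4 R
    (fun k => hThin k) (by
      refine lt_of_le_of_lt ?_ h6
      have e1 : ((Pool.Agent.Q132.GP.msz p ε' : ℕ) : ℝ)
          ≤ ((2 * Pool.Agent.Q132.GP.msz p ε' : ℕ) : ℝ) := by
        push_cast
        have : (0 : ℝ) ≤ (Pool.Agent.Q132.GP.msz p ε' : ℝ) := Nat.cast_nonneg _
        linarith
      have e2 := pow_le_pow_left₀ (Nat.cast_nonneg (Pool.Agent.Q132.GP.msz p ε')) e1 h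
      have e3 := pow_le_pow_left₀ (Nat.cast_nonneg (Pool.Agent.Q132.GP.msz p ε')) e1 2
      have e4 := mul_le_mul_of_nonneg_right (mul_le_mul_of_nonneg_left e2
        (Nat.cast_nonneg (α := ℝ) M)) (Nat.cast_nonneg (α := ℝ) D)
      exact add_le_add e4 e3)
  have h7 := hbd A₁ hAI
    (by rw [cA]; exact Pool.Agent.Q132.GP.msz_gt p ε')
    (by rw [cA]; exact Pool.Agent.Q132.GP.msz_le p hp.one_lt.le ε' hε'.le)
    (fun k x hx hxl => hgen k x hx hxl) χ hχ
  rw [cA] at h7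
  have h8 := saving p hp.one_lt.le ε' τ' hτ' _ (Pool.Agent.Q132.GP.msz_gt p ε')
  have hm0 : (0 : ℝ) < (Pool.Agent.Q132.GP.msz p ε' : ℝ) := by
    have : 0 < Pool.Agent.Q132.GP.msz p ε' := by omega
    exact_mod_cast this
  set m : ℝ := (Pool.Agent.Q132.GP.msz p ε' : ℝ) with hm
  have h9 : (p : ℝ) ^ (-δ) / 16 * (m * m) < m * m * (p : ℝ) ^ (-(ε' * τ')) :=
    lt_of_le_of_lt hbig (lt_of_lt_of_le h7 h8)
  have h10 : (p : ℝ) ^ (-(ε' * τ')) * (m * m) < (p : ℝ) ^ (-δ) / 16 * (m * m) :=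
    mul_lt_mul_of_pos_right h3 (mul_pos hm0 hm0)
  linarith

lemma card_interval (p : ℕ) (hp : p.Prime) (X : ℝ) (hX : X ≤ p) :
    haveI := Fact.mk hp
    X ≤ ((univ : Finset (ZMod p)).filter (fun a => (a.val : ℝ) < X)).card := by
  haveI := Fact.mk hp
  have h1 : (Finset.range ⌈X⌉₊).card ≤
      ((univ : Finset (ZMod p)).filter (fun a => (a.val : ℝ) < X)).card := by
    refine card_le_card_of_injOn (fun k : ℕ => (k : ZMod p)) ?_ ?_
    · intro k hk
      rw [mem_coe, mem_range] at hk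
      rw [mem_coe, mem_filter]
      refine ⟨mem_univ _, ?_⟩
      have h2 : (k : ℝ) < X := Nat.lt_ceil.1 hk
      have h3 : k < p := by
        have : (k : ℝ) < p := lt_of_lt_of_le h2 hX
        exact_mod_cast this
      simp only
      rw [ZMod.val_natCast, Nat.mod_eq_of_lt h3]
      exact h2
    · intro k hk l hl hkl
      rw [mem_coe, mem_range] at hk hl
      have h3 : ∀ k : ℕ, k < ⌈X⌉₊ → k < p := by
        intro k hk
        have : (k : ℝ) < p := lt_of_lt_of_le (Nat.lt_ceil.1 hk) hX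
        exact_mod_cast this
      have h4 := congrArg ZMod.val hkl
      simp only at h4
      rwa [ZMod.val_natCast, ZMod.val_natCast, Nat.mod_eq_of_lt (h3 k hk),
        Nat.mod_eq_of_lt (h3 l hl)] at h4
  rw [card_range] at h1
  calc X ≤ ⌈X⌉₊ := Nat.le_ceil X
    _ ≤ _ := by exact_mod_cast h1

lemma explicit_imp (h : ℕ) (hE : Explicit h) : Reduced h h := by
  classical
  intro ε hε
  obtain ⟨τ, hτ, p₀, hbd⟩ := hE ε hε
  set C : Finset ((Fin h → Fin (h + 1)) → ℤ) :=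
    Fintype.piFinset (fun _ => Finset.Icc (-(h : ℤ)) h) with hC
  set M := C.card with hM
  obtain ⟨P, hP⟩ : ∃ P : ℕ, ∀ p : ℕ, P ≤ p → 1 ≤ p →
      (M : ℝ) * ((h * h : ℕ) : ℝ) ≤ (p : ℝ) ^ ((h : ℝ) * ε) := by
    rcases Nat.eq_zero_or_pos h with h0 | h0
    · refine ⟨0, fun p _ _ => ?_⟩
      rw [h0]
      simp
    · obtain ⟨P, hP⟩ := Pool.Agent.Q132.GP.ev ((M : ℝ) * ((h * h : ℕ) : ℝ)) ((h : ℝ) * ε)
        (by positivity)
      exact ⟨P, fun p hp _ => (hP p hp).le⟩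
  refine ⟨τ, hτ, max p₀ (max P (h + 1)), fun p hp hpp => ?_⟩
  haveI := Fact.mk hp
  have hp1 : p₀ ≤ p := le_trans (le_max_left _ _) hpp
  have hp2 : P ≤ p := le_trans (le_trans (le_max_left _ _) (le_max_right _ _)) hpp
  have hp3 : h < p := le_trans (le_trans (le_max_right _ _) (le_max_right _ _)) hpp
  have hX1 : (1 : ℝ) ≤ p := by exact_mod_cast hp.one_lt.le
  set X : ℝ := (p : ℝ) ^ (1 - (h : ℝ) * ε) with hXd
  have hXp : X ≤ p := by
    calc X ≤ (p : ℝ) ^ (1 : ℝ) := Real.rpow_le_rpow_of_exponent_le hX1 (by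
          have : (0 : ℝ) ≤ h * ε := by positivity
          linarith)
      _ = p := Real.rpow_one _
  set I : Finset (ZMod p) := univ.filter (fun a => (a.val : ℝ) < X) with hI
  let eC := C.equivFin
  refine ⟨I, M, h * h, fun k => {x | ((eC.symm k : (Fin h → Fin (h + 1)) → ℤ)) ≠ 0 ∧
    Pool.Agent.Q132.GP.pval (eC.symm k : (Fin h → Fin (h + 1)) → ℤ) x = 0},
    card_interval p hp X hXp, hP p hp2 hp.one_lt.le, ?_, ?_⟩
  · intro k
    set c : (Fin h → Fin (h + 1)) → ℤ := (eC.symm k : (Fin h → Fin (h + 1)) → ℤ) with hc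
    have hcm : c ∈ C := (eC.symm k).2
    have hb : ∀ e, |c e| ≤ h := by
      intro e
      rw [hC, Fintype.mem_piFinset] at hcm
      have := hcm e
      rw [mem_Icc] at this
      exact abs_le.2 this
    by_cases hc0 : c = 0
    · intro Y m hm
      have : ({x : Fin h → ZMod p | (∀ i, x i ∈ Y i) ∧
          x ∈ {x | c ≠ 0 ∧ Pool.Agent.Q132.GP.pval c x = 0}}) = ∅ := by
        ext x
        simp [hc0]
      rw [this, Set.ncard_empty, mul_zero]
      exact Nat.zero_le _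
    · have := Pool.Agent.Q132.GP.thin_poly hp3 c hc0 hb
      have e : ({x | c ≠ 0 ∧ Pool.Agent.Q132.GP.pval c x = 0} : Set (Fin h → ZMod p))
          = {x | Pool.Agent.Q132.GP.pval c x = 0} := by
        ext x
        simp [hc0]
      intro Y m hm
      have h1 := this Y m hm
      rw [← e] at h1
      exact h1
  · intro A hAI hA1 hA2 hav χ hχ
    refine hbd p hp hp1 A (fun a ha => (mem_filter.1 (hAI ha)).2) hA1 hA2 ?_ χ hχ
    intro c hc hb x hx hxl h0
    have hcm : c ∈ C := by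
      rw [hC, Fintype.mem_piFinset]
      intro e
      rw [mem_Icc]
      exact abs_le.1 (hb e)
    refine hav (eC ⟨c, hcm⟩) x hx hxl ?_
    rw [Set.mem_setOf_eq, Equiv.symm_apply_apply]
    exact ⟨hc, h0⟩

lemma sum_neg (p : ℕ) [Fact p.Prime] (χ : DirichletCharacter ℂ p) (A B : Finset (ZMod p)) :
    ∑ a ∈ A, ∑ b ∈ B.image (fun b => -b), χ (a - b) = ∑ a ∈ A, ∑ b ∈ B, χ (a + b) := by
  refine sum_congr rfl fun a _ => ?_
  rw [sum_image (fun a _ b _ hab => neg_injective hab)]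
  exact sum_congr rfl fun b _ => by rw [sub_neg_eq_add]

lemma even_imp (hE : EvenPairs) : Q1 := by
  intro ε hε
  obtain ⟨p₀, δ, hδ, hb⟩ := hE ε hε
  refine ⟨δ / 2, by positivity, p₀ + 1, fun p hp hpp A hA χ hχ => ?_⟩
  haveI := Fact.mk hp
  have hX1 : (1 : ℝ) ≤ p := by exact_mod_cast hp.one_lt.le
  have hX0 : (0 : ℝ) < p := by linarith
  have hA1 : (1 : ℝ) < A.card := lt_of_le_of_lt (Real.one_le_rpow hX1 hε.le) hA
  have hAr : (0 : ℝ) < A.card := by linarith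
  have hAp : (A.card : ℝ) ≤ p := by
    have := card_le_univ A
    rw [ZMod.card] at this
    exact_mod_cast this
  have hpos : (0 : ℝ) < (A.card : ℝ) ^ (2 - δ / 2) := Real.rpow_pos_of_pos hAr _
  have hcase : χ (-1) = 1 ∨ χ (-1) = -1 := by
    have h1 : χ (-1) * χ (-1) = 1 := by
      rw [← map_mul, neg_mul_neg, one_mul, map_one]
    have h2 : (χ (-1) - 1) * (χ (-1) + 1) = 0 := by ring_nf; rw [sq, h1]; ring
    rcases mul_eq_zero.1 h2 with h3 | h3
    · left; linear_combination h3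
    · right; linear_combination h3
  rcases hcase with h1 | h1
  · have cN : (A.image (fun b => -b)).card = A.card := card_image_of_injective _ neg_injective
    have h2 := hb p hp (by omega) A (A.image (fun b => -b)) hA (by rw [cN]; exact hA) χ hχ h1
    rw [← sum_neg, image_image, cN] at h2
    have e : A.image ((fun b : ZMod p => -b) ∘ fun b => -b) = A := by
      ext x; simp
    rw [e] at h2
    refine lt_of_le_of_lt h2 ?_
    have h3 : (p : ℝ) ^ (-δ) ≤ (A.card : ℝ) ^ (-δ) :=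
      Real.rpow_le_rpow_of_nonpos hAr hAp (by linarith)
    have h4 : (A.card : ℝ) ^ (-δ) * ((A.card : ℝ) * A.card) = (A.card : ℝ) ^ (2 - δ) := by
      rw [show (2 : ℝ) - δ = 2 + (-δ) by ring, Real.rpow_add hAr,
        show (2 : ℝ) = ((2 : ℕ) : ℝ) by norm_num, Real.rpow_natCast, sq, mul_comm]
    have h5 : (A.card : ℝ) ^ (2 - δ) < (A.card : ℝ) ^ (2 - δ / 2) :=
      Real.rpow_lt_rpow_of_exponent_lt hA1 (by linarith)
    calc (p : ℝ) ^ (-δ) * A.card * A.card = (p : ℝ) ^ (-δ) * ((A.card : ℝ) * A.card) := by ring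
      _ ≤ (A.card : ℝ) ^ (-δ) * ((A.card : ℝ) * A.card) :=
          mul_le_mul_of_nonneg_right h3 (by positivity)
      _ < _ := by rw [h4]; exact h5
  · have h2 : S χ A = - S χ A := by
      have h3 : S χ A = ∑ a ∈ A, ∑ b ∈ A, -χ (b - a) := by
        refine sum_congr rfl fun a _ => sum_congr rfl fun b _ => ?_
        rw [show a - b = (-1) * (b - a) by ring, map_mul, h1]
        ring
      calc S χ A = ∑ a ∈ A, ∑ b ∈ A, -χ (b - a) := h3
        _ = ∑ b ∈ A, ∑ a ∈ A, -χ (b - a) := sum_comm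
        _ = - S χ A := by simp only [sum_neg_distrib]; rfl
    have h3 : S χ A = 0 := by
      have : (2 : ℂ) * S χ A = 0 := by linear_combination h2
      rcases mul_eq_zero.1 this with h4 | h4
      · norm_num at h4
      · exact h4
    rw [h3, norm_zero]
    exact hpos

lemma imp_even (hQ : Q1) : EvenPairs := by
  intro ε0 hε0
  set ε := min ε0 1 with hεd
  have hε : 0 < ε := lt_min hε0 one_pos
  have hε1 : ε ≤ 1 := min_le_right _ _
  obtain ⟨ε', hε', hnum⟩ := Pool.Agent.Q132.GP.numbers ε 1 2 hε hε1 zero_le_one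
  obtain ⟨τ', hτ', P₀, hred⟩ := hQ ε' hε'
  obtain ⟨δ, hδ, P, hP⟩ := hnum (ε' * τ' / 2) (by positivity)
  obtain ⟨P₁, hP₁⟩ := Pool.Agent.Q132.GP.ev 24 (ε' * τ' / 2) (by positivity)
  refine ⟨max (max P₀ P) P₁, δ, hδ, fun p hp hpp A B hA hB χ hχ hev => ?_⟩
  haveI := Fact.mk hp
  by_contra hcon
  push Not at hcon
  have hX1 : (1 : ℝ) ≤ p := by exact_mod_cast hp.one_lt.le
  have hX0 : (0 : ℝ) < p := by linarith
  have hA' : (p : ℝ) ^ ε < A.card :=
    lt_of_le_of_lt (Real.rpow_le_rpow_of_exponent_le hX1 (min_le_left _ _)) hA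
  have hB' : (p : ℝ) ^ ε < B.card :=
    lt_of_le_of_lt (Real.rpow_le_rpow_of_exponent_le hX1 (min_le_left _ _)) hB
  have hfull : (p : ℝ) ^ (1 - 1 * ε') ≤ ((univ : Finset (ZMod p)).card : ℝ) := by
    rw [card_univ, ZMod.card]
    calc (p : ℝ) ^ (1 - 1 * ε') ≤ (p : ℝ) ^ (1 : ℝ) :=
          Real.rpow_le_rpow_of_exponent_le hX1 (by linarith)
      _ = p := Real.rpow_one _
  obtain ⟨h1, h2, h3, n, hn, h4, h5, h6⟩ := hP p
    (le_trans (le_trans (le_max_right _ _) (le_max_left _ _)) hpp.le) hp.one_lt.le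
    A.card B.card (univ : Finset (ZMod p)).card (univ : Finset (ZMod p)).card 1 1 hA' hB' hfull hfull
    (by
      rw [Nat.cast_one, mul_one]
      exact Real.one_le_rpow hX1 (by linarith))
  have hη : (0 : ℝ) < (p : ℝ) ^ (-δ) := Real.rpow_pos_of_pos hX0 _
  have hAr : (0 : ℝ) < A.card := lt_trans (Real.rpow_pos_of_pos hX0 _) hA'
  have hBr : (0 : ℝ) < B.card := lt_trans (Real.rpow_pos_of_pos hX0 _) hB'
  have hApos : 0 < A.card := by exact_mod_cast hAr
  have hBpos : 0 < B.card := by exact_mod_cast hBr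
  -- the relation `x + y = 0` is thin
  have hthin : ∀ k : Fin 1, Pool.Agent.Q132.GP.Thin 1
      ((fun _ : Fin 1 => {x : Fin 2 → ZMod p | x 0 + x 1 = 0}) k) := by
    intro _ X m hm
    have hle : ({x : Fin 2 → ZMod p | (∀ i, x i ∈ X i) ∧
        x ∈ {x : Fin 2 → ZMod p | x 0 + x 1 = 0}}).ncard ≤ (X 0).card := by
      rw [← Set.ncard_coe_finset]
      refine Set.ncard_le_ncard_of_injOn (fun x => x 0) (fun x hx => hx.1 0) ?_ (X 0).finite_toSet
      intro x hx y hy hxy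
      simp only at hxy
      have e1 : x 0 + x 1 = 0 := hx.2
      have e2 : y 0 + y 1 = 0 := hy.2
      have e3 : x 1 = y 1 := by
        rw [← hxy] at e2
        exact add_left_cancel (e1.trans e2.symm)
      funext i
      fin_cases i
      · exact hxy
      · exact e3
    rw [Fin.prod_univ_two, one_mul, mul_comm]
    exact Nat.mul_le_mul hle (hm 1)
  obtain ⟨A₁, B₁, -, -, hdis, cA, cB, hgen, hbig⟩ := Pool.Agent.Q132.GP.core_two χ A B univ univ
    ((p : ℝ) ^ (-δ)) hη h1 (by linarith) hApos hBpos n (Pool.Agent.Q132.GP.msz p ε') hn (by omega)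
    h4 h5 (fun _ : Fin 1 => {x : Fin 2 → ZMod p | x 0 + x 1 = 0}) hthin (by
      refine lt_of_lt_of_le h6 ?_
      have : (0 : ℝ) ≤ n := Nat.cast_nonneg _
      nlinarith)
  set C₁ := B₁.image (fun b => -b) with hC₁
  have cC : C₁.card = Pool.Agent.Q132.GP.msz p ε' := by
    rw [hC₁, card_image_of_injective _ neg_injective, cB]
  have hdisj : Disjoint A₁ C₁ := by
    rw [disjoint_left]
    intro x hx hx'
    obtain ⟨b, hb, hbx⟩ := mem_image.1 hx'
    have hne : x ≠ b := fun hh => (disjoint_left.1 hdis hx) (hh ▸ hb)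
    refine hgen 0 ![x, b] ?_ ?_ ?_
    · intro i j hij
      fin_cases i <;> fin_cases j <;> simp_all
    · intro i
      fin_cases i
      · exact mem_union_left _ hx
      · exact mem_union_right _ hb
    · simp only [Set.mem_setOf_eq, Matrix.cons_val_zero, Matrix.cons_val_one]
      rw [← hbx]
      ring
  have hsum : ∑ a ∈ A₁, ∑ b ∈ B₁, χ (a + b) = ∑ a ∈ A₁, ∑ b ∈ C₁, χ (a - b) := (sum_neg p χ _ _).symm
  rw [hsum] at hbig
  have hsymm : ∑ a ∈ C₁, ∑ b ∈ A₁, χ (a - b) = ∑ a ∈ A₁, ∑ b ∈ C₁, χ (a - b) := by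
    rw [sum_comm]
    refine sum_congr rfl fun a _ => sum_congr rfl fun b _ => ?_
    rw [show b - a = (-1) * (a - b) by ring, map_mul, hev, one_mul]
  have hunion : S χ (A₁ ∪ C₁) = S χ A₁ + S χ C₁ + 2 * ∑ a ∈ A₁, ∑ b ∈ C₁, χ (a - b) := by
    unfold S
    rw [sum_union hdisj]
    simp only [sum_union hdisj, sum_add_distrib]
    rw [hsymm]
    ring
  set m : ℕ := Pool.Agent.Q132.GP.msz p ε' with hm
  have hm1 : (p : ℝ) ^ ε' < m := Pool.Agent.Q132.GP.msz_gt p ε'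
  have hm0 : (0 : ℝ) < m := by
    have : 0 < m := by omega
    exact_mod_cast this
  have cU : (A₁ ∪ C₁).card = 2 * m := by
    rw [card_union_of_disjoint hdisj, cA, cC]; ring
  have hU1 : (p : ℝ) ^ ε' < (2 * m : ℕ) := by push_cast; linarith
  have hP0 : P₀ ≤ p := le_trans (le_trans (le_max_left _ _) (le_max_left _ _)) hpp.le
  have b1 := hred p hp hP0 A₁ (by rw [cA]; exact hm1) χ hχ
  have b2 := hred p hp hP0 C₁ (by rw [cC]; exact hm1) χ hχ
  have b3 := hred p hp hP0 (A₁ ∪ C₁) (by rw [cU]; exact hU1) χ hχ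
  rw [cA] at b1
  rw [cC] at b2
  rw [cU] at b3
  have s1 := saving p hp.one_lt.le ε' τ' hτ' m hm1
  have s2 := saving p hp.one_lt.le ε' τ' hτ' (2 * m) hU1
  have h7 := hP₁ p (le_trans (le_max_right _ _) hpp.le)
  set Z : ℝ := (p : ℝ) ^ (-(ε' * τ')) with hZ
  have hZ2 : Z * (p : ℝ) ^ (ε' * τ' / 2) = (p : ℝ) ^ (-(ε' * τ' / 2)) := by
    rw [hZ, ← Real.rpow_add hX0]; congr 1; ring
  have hZ0 : 0 < Z := Real.rpow_pos_of_pos hX0 _
  have h8 : 24 * Z < (p : ℝ) ^ (-(ε' * τ' / 2)) := by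
    rw [← hZ2]
    have := mul_lt_mul_of_pos_left h7 hZ0
    linarith
  have h9 : 2 * ‖∑ a ∈ A₁, ∑ b ∈ C₁, χ (a - b)‖ ≤ ‖S χ (A₁ ∪ C₁)‖ + ‖S χ A₁‖ + ‖S χ C₁‖ := by
    have e : 2 * ∑ a ∈ A₁, ∑ b ∈ C₁, χ (a - b) = S χ (A₁ ∪ C₁) - S χ A₁ - S χ C₁ := by
      rw [hunion]; ring
    have e2 := congrArg norm e
    rw [norm_mul, Complex.norm_ofNat] at e2
    rw [e2]
    refine (norm_sub_le _ _).trans ?_
    have := norm_sub_le (S χ (A₁ ∪ C₁)) (S χ A₁)
    linarith
  have s2' : ((2 * m : ℕ) : ℝ) ^ (2 - τ') ≤ 4 * ((m : ℝ) * m * Z) := by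
    refine s2.trans (le_of_eq ?_)
    push_cast
    ring
  have h10 : 2 * ((p : ℝ) ^ (-δ) / 8 * ((m : ℝ) * m)) < 6 * ((m : ℝ) * m * Z) := by
    have := mul_le_mul_of_nonneg_left hbig (show (0 : ℝ) ≤ 2 by norm_num)
    linarith
  have hmm : (0 : ℝ) < (m : ℝ) * m := mul_pos hm0 hm0
  have h11 : (p : ℝ) ^ (-(ε' * τ' / 2)) * ((m : ℝ) * m) < (p : ℝ) ^ (-δ) / 16 * ((m : ℝ) * m) :=
    mul_lt_mul_of_pos_right h3 hmm
  have h12 := mul_lt_mul_of_pos_right h8 hmm
  have h13 : 0 < (p : ℝ) ^ (-δ) * ((m : ℝ) * m) := mul_pos hη hmm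
  linarith

/-- **Main theorem.**  For all `h` and `κ ≥ 0` the power saving of Q1 is equivalent to its restriction
to subsets in general position of one given set of density `p^(-κ δ)`; in particular, for every `h`,
to its restriction to sets of integers in `[0, p^(1 - h δ))` without algebraic relations of
complexity `h`; and it is equivalent to the Paley graph conjecture for all even characters. -/
theorem result :
    (∀ (h : ℕ) (κ : ℝ), 0 ≤ κ → (Q1 ↔ Reduced h κ)) ∧ (∀ h : ℕ, (Q1 ↔ Explicit h)) ∧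
    (Q1 ↔ EvenPairs) := by
  have hQE : ∀ h : ℕ, Q1 → Explicit h := by
    intro h hQ ε hε
    obtain ⟨δ, hδ, p₀, hb⟩ := hQ ε hε
    exact ⟨δ, hδ, p₀, fun p hp hpp A _ hA _ _ χ hχ => hb p hp hpp A hA χ hχ⟩
  refine ⟨fun h κ hκ => ⟨?_, reduced_imp h κ hκ⟩,
    fun h => ⟨hQE h, fun hE => reduced_imp h h (Nat.cast_nonneg _) (explicit_imp h hE)⟩,
    imp_even, even_imp⟩
  intro hQ ε hε
  obtain ⟨δ, hδ, p₀, hb⟩ := hQ ε hε
  refine ⟨δ, hδ, p₀, fun p hp hpp => ?_⟩
  haveI := Fact.mk hp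
  have hX1 : (1 : ℝ) ≤ p := by exact_mod_cast hp.one_lt.le
  have hfull : (p : ℝ) ^ (1 - κ * ε) ≤ ((univ : Finset (ZMod p)).card : ℝ) := by
    rw [card_univ, ZMod.card]
    calc (p : ℝ) ^ (1 - κ * ε) ≤ (p : ℝ) ^ (1 : ℝ) := Real.rpow_le_rpow_of_exponent_le hX1 (by
          have : (0 : ℝ) ≤ κ * ε := by positivity
          linarith)
      _ = p := Real.rpow_one _
  refine ⟨univ, 0, 0, fun k => ∅, hfull, ?_, fun k => k.elim0, ?_⟩
  · simp only [Nat.cast_zero, mul_zero]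
    positivity
  · intro A _ hA _ _ χ hχ
    exact hb p hp hpp A hA χ hχ

end Pool.Agent.Results.MP_cb27ba_nt.GenericSubsetsSuffice
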